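import Mathlib

set_option autoImplicit false

open Set Filter ENNReal

namespace Pool.Agent.Results.MP_75ee99_lc.No

/-- time at which the turning point number `i` is reached -/
noncomputable def tau (y : ℕ → ℝ) (i : ℕ) : ℝ := ∑ k ∈ Finset.range i, |y (k + 1) - y k|

/-- a trajectory given by its turning points -/
def Traj (y : ℕ → ℝ) : Prop :=
  y 0 = 0 ∧ y 1 ≠ 0 ∧ (∀ i, (y (i + 2) - y (i + 1)) * (y (i + 1) - y i) < 0) ∧
    Tendsto (tau y) atTop atTop

/-- cyclic and monotone trajectories -/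
def CycMono (y : ℕ → ℝ) : Prop :=
  ∃ (ε : ℝ) (x : ℕ → ℝ), (ε = 1 ∨ ε = -1) ∧ (∀ i, 0 < x i) ∧ (∀ i, x i < x (i + 2)) ∧
    ∀ i, y (i + 1) = ε * (-1) ^ i * x i

/-- the times at which the searcher is at `h` -/
def passes (y : ℕ → ℝ) (h : ℝ) : Set ℝ :=
  {t | ∃ i, h ∈ uIcc (y i) (y (i + 1)) ∧ t = tau y i + |h - y i|}

/-- the time of the pass number `k` (counted from `0`), `∞` if there is none -/
noncomputable def nth (S : Set ℝ) (k : ℕ) : ℝ≥0∞ :=
  ⨅ t ∈ {t : ℝ | (k : ℕ∞) < (S ∩ Iic t).encard}, ENNReal.ofReal t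

/-- expected time of the first detection -/
noncomputable def ET (p : ℝ) (y : ℕ → ℝ) (h : ℝ) : ℝ≥0∞ :=
  ∑' k, ENNReal.ofReal (p * (1 - p) ^ k) * nth (passes y h) k

/-- the competitive ratio -/
noncomputable def CR (p : ℝ) (y : ℕ → ℝ) : ℝ≥0∞ :=
  ⨆ h ∈ {h : ℝ | 1 ≤ |h|}, ENNReal.ofReal p * ET p y h / ENNReal.ofReal |h|

theorem nth_le {S : Set ℝ} {u : ℕ → ℝ} (h : StrictMono u) (hS : ∀ k, u k ∈ S) (k : ℕ) :
    nth S k ≤ ENNReal.ofReal (u k) := by
  refine biInf_le (s := {t : ℝ | (k : ℕ∞) < (S ∩ Iic t).encard}) _ ?_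
  have : u '' (Finset.range (k + 1) : Set ℕ) ⊆ S ∩ Iic (u k) := by
    rintro _ ⟨j, hj, rfl⟩
    exact ⟨hS j, h.monotone (Nat.lt_succ_iff.1 (by simpa using hj))⟩
  refine lt_of_lt_of_le ?_ (encard_le_encard this)
  rw [h.injective.encard_image, encard_coe_eq_coe_finsetCard, Finset.card_range]
  exact_mod_cast Nat.lt_succ_self k

theorem le_nth {S : Set ℝ} {u : ℕ → ℝ} (h : Monotone u) (hS : S ⊆ range u) (k : ℕ) :
    ENNReal.ofReal (u k) ≤ nth S k := by
  refine le_iInf₂ fun t ht => ofReal_le_ofReal (not_lt.1 fun c => not_le.2 (show (k : ℕ∞) < _ from ht) ?_)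
  have : S ∩ Iic t ⊆ u '' (Finset.range k : Set ℕ) := by
    rintro s ⟨a, b⟩
    obtain ⟨j, rfl⟩ := hS a
    refine ⟨j, ?_, rfl⟩
    simpa using not_le.1 fun e => not_le.2 c ((h e).trans b)
  refine (encard_le_encard this).trans ((encard_image_le _ _).trans ?_)
  rw [encard_coe_eq_coe_finsetCard, Finset.card_range]

theorem w_eq (k : ℕ) : (1 / 2 : ℝ) * (1 - 1 / 2) ^ k = (1 / 2) ^ (k + 1) := by
  norm_num [pow_succ']

theorem disc {a b c : ℝ} (ha : 0 < a) (hc : 0 < c) {S : ℕ → ℝ} (hS : ∀ n, 0 < S n)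
    (h : ∀ n, a * S (n + 2) + c * S n ≤ b * S (n + 1)) : 4 * a * c ≤ b ^ 2 := by
  by_contra hh
  push Not at hh
  set m := Real.sqrt (4 * a * c)
  have m2 : m ^ 2 = 4 * a * c := Real.sq_sqrt (by positivity)
  have bm : b < m := Real.lt_sqrt_of_sq_lt hh
  have st : ∀ n, S (n + 2) / S (n + 1) ≤ S (n + 1) / S n - (m - b) / a := by
    intro n
    have h0 := hS n
    have h1 := hS (n + 1)
    have := h n
    rw [div_sub_div _ _ h0.ne' ha.ne', div_le_div_iff₀ h1 (by positivity)]
    have e : 0 ≤ a * S (n + 1) ^ 2 - m * S (n + 1) * S n + c * S n ^ 2 := by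
      have := sq_nonneg (2 * a * S (n + 1) - m * S n)
      refine nonneg_of_mul_nonneg_right (a := 4 * a) ?_ (by positivity)
      nlinarith
    nlinarith [mul_le_mul_of_nonneg_right this h0.le]
  have al : ∀ n : ℕ, S (n + 1) / S n ≤ S 1 / S 0 - n * ((m - b) / a) := by
    intro n
    induction n with
    | zero => simp
    | succ n ih => have := st n; push_cast; linarith
  have d : 0 < (m - b) / a := div_pos (by linarith) ha
  obtain ⟨n, hn⟩ := exists_nat_gt (S 1 / S 0 / ((m - b) / a))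
  rw [div_lt_iff₀ d] at hn
  have := div_pos (hS (n + 1)) (hS n)
  linarith [al n]

theorem lower (y : ℕ → ℝ) (hy : y 0 = 0) (hm : CycMono y) : ENNReal.ofReal 8 ≤ CR (1 / 2) y := by
  obtain ⟨ε, x, hε, x0, x2, hx⟩ := hm
  by_contra hh
  obtain ⟨C, C0, C1, C2⟩ := lt_iff_exists_real_btwn.1 (not_le.1 hh)
  have C8 : C < 8 := (ofReal_lt_ofReal_iff (by norm_num)).1 C2
  have hE : ∀ h : ℝ, 1 ≤ |h| → ET (1 / 2) y h ≤ ENNReal.ofReal (2 * C * |h|) := by
    intro h h1
    have := (le_biSup (s := {h : ℝ | 1 ≤ |h|}) (fun h => ENNReal.ofReal (1 / 2) *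
      ET (1 / 2) y h / ENNReal.ofReal |h|) h1).trans C1.le
    rw [ENNReal.div_le_iff (ofReal_pos.2 (by linarith)).ne' ofReal_ne_top, ← ofReal_mul C0] at this
    have := mul_le_mul_right this (ENNReal.ofReal 2)
    rwa [← mul_assoc, ← ofReal_mul (by norm_num), ← ofReal_mul (by norm_num),
      show (2 : ℝ) * (1 / 2) = 1 by norm_num, ofReal_one, one_mul, ← mul_assoc] at this
  set T : ℕ → ℝ := fun j => 2 * ∑ k ∈ Finset.range j, x k with hT
  have Ts : ∀ j, T (j + 1) = T j + 2 * x j := fun j => by simp [hT, Finset.sum_range_succ]; ring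
  let x' : ℕ → ℝ := fun m => Nat.casesOn m 0 x
  let s : ℕ → ℝ := fun m => ε * (-1) ^ m
  have ss : ∀ m, s m = 1 ∨ s m = -1 := fun m => by
    rcases hε with rfl | rfl <;> rcases neg_one_pow_eq_or ℝ m with e | e <;> simp [s, e]
  have x'0 : ∀ m, 0 ≤ x' m := fun m => by cases m; exacts [le_rfl, (x0 _).le]
  have y1 : ∀ m, y m = -s m * x' m := fun m => by
    cases m with
    | zero => simp [hy, x']
    | succ m => rw [hx]; simp [s, x', pow_succ]
  have t1 : ∀ m, tau y m = T m - x' m := fun m => by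
    induction m with
    | zero => simp [tau, hT, x']
    | succ m ih =>
      have : |y (m + 1) - y m| = x m + x' m := by
        rw [y1 m, hx]
        have := x0 m
        have := x'0 m
        change |s m * x m - _| = _
        rcases ss m with e | e <;> rw [e]
        · rw [abs_of_nonneg] <;> linarith
        · rw [abs_of_nonpos] <;> linarith
      rw [tau, Finset.sum_range_succ, ← tau, ih, this, Ts]
      simp only [x']; ring
  have mono : ∀ i n, x i ≤ x (i + 2 * n) := fun i n => by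
    induction n with
    | zero => rfl
    | succ n ih => exact ih.trans (x2 _).le
  have sp : ∀ i n, s (i + n) = s i * (-1) ^ n := fun i n => by simp [s, pow_add, mul_assoc]
  have key : ∀ i d, 0 < d → ∀ t ∈ passes y (s i * d), ∃ m, (∃ j, (j = m ∨ j + 1 = m) ∧
      s j = s i ∧ d ≤ x j) ∧ t = T m + s m * s i * d := by
    rintro i d hd t ⟨m, h1, rfl⟩
    rw [t1, y1 m]
    rw [y1 m, hx] at h1
    change _ ∈ uIcc _ (s m * x m) at h1
    have a := x0 m
    have b := x'0 m
    have c : s m = s i ∨ s m = -s i := by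
      rcases ss m with e | e <;> rcases ss i with f | f <;> simp [e, f]
    refine ⟨m, ?_, ?_⟩
    · rcases c with c | c
      · refine ⟨m, Or.inl rfl, c, ?_⟩
        rcases ss i with f | f <;> rw [c, f, mem_uIcc] at h1 <;> rcases h1 with h | h <;>
          linarith [h.1, h.2]
      · have : d ≤ x' m := by
          rcases ss i with f | f <;> rw [c, f, mem_uIcc] at h1 <;> rcases h1 with h | h <;>
            linarith [h.1, h.2]
        cases m with
        | zero => exact absurd this (not_le.2 hd)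
        | succ m => exact ⟨m, Or.inr rfl, by rw [sp] at c; linarith, this⟩
    · rcases ss m with e | e <;> rcases ss i with f | f <;> rw [e, f, mem_uIcc] at h1 <;>
        rw [e, f] <;> rcases h1 with h | h <;>
        first | (rw [abs_of_nonneg (by linarith [h.1, h.2])]; linarith [h.1, h.2]) |
          (rw [abs_of_nonpos (by linarith [h.1, h.2])]; linarith [h.1, h.2])
  have ad : ∀ i d, 0 < d → |s i * d| = d := fun i d hd => by
    rcases ss i with f | f <;> simp [f, hd.le]
  have par : ∀ i j, s j = s i → j % 2 = i % 2 := by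
    intro i j h
    have e0 : ε ≠ 0 := by rcases hε with rfl | rfl <;> norm_num
    have := mul_left_cancel₀ e0 h
    rcases Nat.even_or_odd i with a | a <;> rcases Nat.even_or_odd j with b | b <;>
      rw [a.neg_one_pow, b.neg_one_pow] at this <;>
      simp only [Nat.even_iff, Nat.odd_iff] at a b <;> first | omega | norm_num at this
  have big : ∀ i, ∃ j, s j = s i ∧ 1 ≤ x j := by
    intro i
    by_contra hh
    have e : passes y (s i * 1) = ∅ := eq_empty_of_forall_notMem fun t ht => by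
      obtain ⟨m, ⟨j, -, b⟩, -⟩ := key i 1 one_pos t ht
      exact hh ⟨j, b⟩
    have := (ENNReal.le_tsum 0).trans (hE (s i * 1) (ad i 1 one_pos).ge)
    rw [e] at this
    simp [nth, mul_top] at this
  obtain ⟨a, a1, a2⟩ := big 0
  obtain ⟨b, b1, b2⟩ := big 1
  have ge1 : ∀ i, a + b ≤ i → 1 ≤ x i := by
    intro i hi
    have a3 := par _ _ a1
    have b3 := par _ _ b1
    rcases Nat.mod_two_eq_zero_or_one i with e | e
    · exact a2.trans (by rw [show i = a + 2 * ((i - a) / 2) by omega]; exact mono _ _)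
    · exact b2.trans (by rw [show i = b + 2 * ((i - b) / 2) by omega]; exact mono _ _)
  have T0 : ∀ j, 0 ≤ T j := fun j => mul_nonneg (by norm_num) (Finset.sum_nonneg fun _ _ => (x0 _).le)
  have main : ∀ i d, 1 ≤ x i → x i < d → d ≤ x (i + 2) →
      Summable (fun k => (1 / 2 : ℝ) ^ (k + 1) * T (i + 2 + k)) ∧
      ∑' k, (1 / 2 : ℝ) ^ (k + 1) * T (i + 2 + k) ≤ 2 * C * d := by
    intro i d h1 h2 h3
    have hd : 0 < d := by linarith
    let u : ℕ → ℝ := fun k => T (i + 2 + k) + (-1) ^ k * d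
    have um : Monotone u := monotone_nat_of_le_succ fun k => by
      simp only [u]
      rw [← add_assoc, Ts, pow_succ]
      rcases Nat.even_or_odd' k with ⟨n, rfl | rfl⟩
      · have := mono (i + 2) n
        rw [pow_mul]; norm_num; linarith
      · have := x0 (i + 2 + (2 * n + 1))
        rw [pow_succ, pow_mul]; norm_num; linarith
    have u0 : ∀ k, 0 ≤ u k := fun k => le_trans (by simp only [u]; have := T0 (i + 2 + 0); linarith)
      (um (Nat.zero_le k))
    have sub : passes y (s i * d) ⊆ range u := fun t ht => by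
      obtain ⟨m, ⟨j, j1, j2, j3⟩, rfl⟩ := key i d hd t ht
      have := par _ _ j2
      have : i + 2 ≤ j := by
        by_contra c
        have := mono j ((i - j) / 2)
        rw [show j + 2 * ((i - j) / 2) = i by omega] at this
        linarith
      obtain ⟨k, rfl⟩ : ∃ k, m = i + 2 + k := ⟨m - (i + 2), by omega⟩
      refine ⟨k, ?_⟩
      simp only [u]
      rw [sp, sp]
      rcases ss i with f | f <;> rw [f] <;> ring
    have e1 : ∑' k, ENNReal.ofReal ((1 / 2 : ℝ) ^ (k + 1) * u k) ≤ ENNReal.ofReal (2 * C * d) := by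
      have := hE _ (by rw [ad i d hd]; linarith)
      rw [ad i d hd] at this
      refine le_trans (ENNReal.tsum_le_tsum fun k => ?_) this
      rw [w_eq, ofReal_mul (by positivity)]
      exact mul_le_mul_right (le_nth um sub k) _
    have nn : ∀ k, 0 ≤ (1 / 2 : ℝ) ^ (k + 1) * u k := fun k => mul_nonneg (by positivity) (u0 k)
    have e2 : Summable fun k => (1 / 2 : ℝ) ^ (k + 1) * u k := by
      have := summable_toReal (ne_top_of_le_ne_top ofReal_ne_top e1)
      exact this.congr fun k => toReal_ofReal (nn k)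
    rw [← ofReal_tsum_of_nonneg nn e2, ofReal_le_ofReal_iff (by positivity)] at e1
    have g := (hasSum_geometric_of_abs_lt_one (r := -(1 / 2)) (by norm_num [abs_of_pos])).mul_left
      (d / 2)
    have e3 := e2.hasSum.sub g
    have : (fun k => (1 / 2 : ℝ) ^ (k + 1) * u k - d / 2 * (-(1 / 2)) ^ k) =
        fun k => (1 / 2 : ℝ) ^ (k + 1) * T (i + 2 + k) := funext fun k => by
      simp only [u]; rw [neg_pow (1 / 2 : ℝ)]; ring
    rw [this] at e3
    refine ⟨e3.summable, ?_⟩
    rw [e3.tsum_eq]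
    norm_num at e1 ⊢
    linarith
  have sm : ∀ j, Summable fun k => (1 / 2 : ℝ) ^ (k + 1) * T (j + k) := by
    intro j
    have h1 := (main (a + b + j) _ (ge1 _ (by omega)) (x2 _) le_rfl).1
    refine (summable_nat_add_iff (a + b + 2)).1 ((h1.mul_left ((1 / 2) ^ (a + b + 2))).congr
      fun k => ?_)
    rw [show j + (k + (a + b + 2)) = a + b + j + 2 + k by ring]; ring
  let S : ℕ → ℝ := fun j => ∑' k, (1 / 2 : ℝ) ^ (k + 1) * T (j + k)
  have Ss : ∀ j, S j = T j / 2 + S (j + 1) / 2 := fun j => by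
    simp only [S]
    rw [(sm j).tsum_eq_zero_add, ← tsum_div_const]
    congr 1
    · simp; ring
    · exact tsum_congr fun k => by rw [show j + (k + 1) = j + 1 + k by ring]; ring
  have S0 : ∀ j, 0 < S (j + 1) := fun j => by
    have : 0 ≤ S (j + 2) := tsum_nonneg fun k => mul_nonneg (by positivity) (T0 _)
    have := T0 j
    have := x0 j
    rw [Ss, Ts]; linarith
  have ineq : ∀ i, a + b ≤ i → S (i + 2) ≤ 2 * C * x i := by
    intro i hi
    refine ge_of_tendsto (f := fun d => 2 * C * d) (x := nhdsWithin (x i) (Ioi (x i)))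
      ((continuous_const.mul continuous_id).continuousAt.tendsto.mono_left nhdsWithin_le_nhds) ?_
    filter_upwards [Ioc_mem_nhdsGT (x2 i)] with d hd using (main i d (ge1 i hi) hd.1 hd.2).2
  have Cp : 0 < C := by
    have := (S0 _).trans_le (ineq _ le_rfl)
    rcases C0.eq_or_lt with e | e
    · simp [← e] at this
    · exact e
  have := disc (a := 1 + C) (b := 3 * C) (c := 2 * C) (by linarith) (by linarith)
    (S := fun n => S (a + b + n + 1)) (fun n => S0 _) fun n => by
      have h1 := ineq (a + b + n + 1) (by omega)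
      have h2 := Ss (a + b + n + 1)
      have h3 := Ss (a + b + n + 1 + 1)
      have h4 := Ts (a + b + n + 1)
      simp only [← add_assoc]
      have : 2 * x (a + b + n + 1) = 3 * S (a + b + n + 1 + 1) - S (a + b + n + 1 + 1 + 1) -
        2 * S (a + b + n + 1) := by linarith
      change (1 + C) * S (a + b + n + 1 + 1 + 1) + _ ≤ _
      change S (a + b + n + 1 + 1 + 1) ≤ _ at h1
      nlinarith
  nlinarith

noncomputable def R (i : ℕ) : ℝ := (3 / 2) ^ i / 2

noncomputable def Y : ℕ → ℝ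
  | 0 => 0
  | n + 1 => (-1) ^ (n / 3) * (if n % 3 = 0 then 3 / 2 else if n % 3 = 1 then 1 else 9 / 4) * R (n / 3)

theorem R_pos (i : ℕ) : 0 < R i := by unfold R; positivity

theorem R_succ (i : ℕ) : R (i + 1) = 3 / 2 * R i := by unfold R; ring

theorem Y1 (i : ℕ) : Y (3 * i + 1) = (-1) ^ i * (3 / 2 * R i) := by
  simp [Y, mul_assoc]

theorem Y2 (i : ℕ) : Y (3 * i + 2) = (-1) ^ i * R i := by
  have : (3 * i + 1) / 3 = i := by omega
  simp [Y, this, Nat.add_mod]

theorem Y3 (i : ℕ) : Y (3 * i + 3) = (-1) ^ i * (9 / 4 * R i) := by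
  have : (3 * i + 2) / 3 = i := by omega
  simp [Y, this, Nat.add_mod, mul_assoc]

theorem Y4 (i : ℕ) : Y (3 * i + 4) = (-1) ^ i * (-(9 / 4 * R i)) := by
  rw [show 3 * i + 4 = 3 * (i + 1) + 1 by ring, Y1, R_succ]; ring

theorem absm (i : ℕ) (a b : ℝ) : |(-1) ^ i * a - (-1) ^ i * b| = |a - b| := by
  rw [← mul_sub, abs_mul]; simp

theorem tau_succ (y : ℕ → ℝ) (i : ℕ) : tau y (i + 1) = tau y i + |y (i + 1) - y i| :=
  Finset.sum_range_succ _ _

theorem tau1 (i : ℕ) : tau Y (3 * i + 1) = 25 / 2 * R i - 11 / 2 ∧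
    tau Y (3 * i + 2) = 13 * R i - 11 / 2 ∧ tau Y (3 * i + 3) = 57 / 4 * R i - 11 / 2 := by
  have st : ∀ i, tau Y (3 * i + 1) = 25 / 2 * R i - 11 / 2 →
      tau Y (3 * i + 2) = 13 * R i - 11 / 2 ∧ tau Y (3 * i + 3) = 57 / 4 * R i - 11 / 2 := by
    intro i h
    have := R_pos i
    have a : tau Y (3 * i + 2) = 13 * R i - 11 / 2 := by
      rw [tau_succ, h, Y2, Y1, absm, abs_of_nonpos] <;> linarith
    exact ⟨a, by rw [tau_succ, a, Y2, Y3, absm, abs_of_nonneg] <;> linarith⟩
  suffices tau Y (3 * i + 1) = 25 / 2 * R i - 11 / 2 from ⟨this, st i this⟩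
  induction i with
  | zero => norm_num [tau, Y, R, abs_of_pos]
  | succ i ih =>
    have := R_pos i
    rw [show 3 * (i + 1) + 1 = 3 * i + 3 + 1 by ring, tau_succ, (st i ih).2, Y4, Y3, absm, R_succ,
      abs_of_nonpos] <;> linarith

theorem traj : Traj Y := by
  refine ⟨rfl, by norm_num [Y, R], fun n => ?_, ?_⟩
  · have sq : ∀ i : ℕ, ((-1 : ℝ) ^ i) * (-1) ^ i = 1 := fun i => by rw [← mul_pow]; simp
    rcases n with _ | n
    · norm_num [Y, R]
    · obtain ⟨i, rfl | rfl | rfl⟩ : ∃ i, n = 3 * i ∨ n = 3 * i + 1 ∨ n = 3 * i + 2 :=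
        ⟨n / 3, by omega⟩
      all_goals have := mul_pos (R_pos i) (R_pos i)
      · rw [Y3, Y2, Y1]; nlinarith [sq i]
      · rw [Y4, Y3, Y2]; nlinarith [sq i]
      · rw [show 3 * i + 2 + 1 + 2 = 3 * (i + 1) + 2 by ring, Y2 (i + 1), Y4, Y3, R_succ, pow_succ]
        nlinarith [sq i]
  · refine tendsto_atTop_atTop_of_monotone (monotone_nat_of_le_succ fun n => by
      rw [tau_succ]; linarith [abs_nonneg (Y (n + 1) - Y n)]) fun b => ?_
    obtain ⟨i, hi⟩ := pow_unbounded_of_one_lt (b + 1) (show (1 : ℝ) < 3 / 2 by norm_num)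
    have := one_le_pow₀ (show (1 : ℝ) ≤ 3 / 2 by norm_num) (n := i)
    exact ⟨3 * i + 1, by rw [(tau1 i).1, R]; linarith⟩

theorem pass (n i : ℕ) {a b e t : ℝ} (h1 : Y n = (-1) ^ i * a) (h2 : Y (n + 1) = (-1) ^ i * b)
    (h3 : e ∈ uIcc a b) (h4 : t = tau Y n + |e - a|) : t ∈ passes Y ((-1) ^ i * e) := by
  refine ⟨n, ?_, by rw [h1, absm, h4]⟩
  rw [h1, h2]
  rw [mem_uIcc] at h3 ⊢
  rcases neg_one_pow_eq_or ℝ i with f | f <;> rw [f] <;> rcases h3 with h | h
  exacts [Or.inl ⟨by linarith [h.1], by linarith [h.2]⟩, Or.inr ⟨by linarith [h.1], by linarith [h.2]⟩,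
    Or.inr ⟨by linarith [h.2], by linarith [h.1]⟩, Or.inl ⟨by linarith [h.2], by linarith [h.1]⟩]

theorem pass0 (j : ℕ) {e : ℝ} (h : |e| ≤ 9 / 4 * R j) :
    33 / 2 * R j - 11 / 2 - e ∈ passes Y ((-1) ^ j * e) := by
  rw [abs_le] at h
  exact pass (3 * j + 3) j (Y3 j) (Y4 j) (mem_uIcc.2 (Or.inr h))
    (by rw [(tau1 j).2.2, abs_of_nonpos] <;> linarith [h.2])

theorem hs {f g : ℕ → ℝ} {a b : ℝ} (h : HasSum f a) (e1 : ∀ k, g k = f k) (e2 : b = a) :
    HasSum g b := by rw [funext e1, e2]; exact h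

def Good (S : Set ℝ) (a s : ℝ) : Prop := ∃ u : ℕ → ℝ, StrictMono u ∧ (∀ k, u k ∈ S) ∧ u 0 = a ∧
  HasSum (fun k => (1 / 2 : ℝ) ^ (k + 1) * u k) s

theorem Good.cons {S : Set ℝ} {a s b : ℝ} (h : Good S a s) (hb : b ∈ S) (hl : b < a) :
    Good S b (b / 2 + s / 2) := by
  obtain ⟨u, u1, u2, u3, u4⟩ := h
  refine ⟨fun k => Nat.casesOn k b u, strictMono_nat_of_lt_succ fun k => ?_, fun k => ?_, rfl, ?_⟩
  · cases k with
    | zero => exact hl.trans_eq u3.symm
    | succ k => exact u1 (Nat.lt_succ_self k)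
  · cases k with
    | zero => exact hb
    | succ k => exact u2 k
  · rw [← hasSum_nat_add_iff' 1]
    exact hs (u4.div_const 2) (fun k => by simp only; ring) (by simp; ring)

theorem Good.le {h a s : ℝ} (g : Good (passes Y h) a s) (ha : 0 ≤ a) :
    ET (1 / 2) Y h ≤ ENNReal.ofReal s := by
  obtain ⟨u, u1, u2, u3, u4⟩ := g
  have : ∀ k, 0 ≤ (1 / 2 : ℝ) ^ (k + 1) * u k := fun k =>
    mul_nonneg (by positivity) ((u3 ▸ ha).trans (u1.monotone (Nat.zero_le k)))
  rw [← u4.tsum_eq, ofReal_tsum_of_nonneg this u4.summable]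
  refine ENNReal.tsum_le_tsum fun k => ?_
  rw [w_eq, ofReal_mul (p := (1 / 2) ^ (k + 1)) (by positivity)]
  exact mul_le_mul_right (nth_le u1 u2 k) _

theorem tail (i : ℕ) {d : ℝ} (h0 : 0 < d) (h : d < 9 / 4 * R i) :
    Good (passes Y ((-1) ^ i * d)) (33 / 2 * R i - 11 / 2 - d) (33 * R i - 11 / 2 - d / 3) := by
  have e : ∀ k, R (i + k) = (3 / 2) ^ k * R i := fun k => by unfold R; ring
  have l : ∀ k, R i ≤ R (i + k) := fun k => by
    rw [e]; exact le_mul_of_one_le_left (R_pos i).le (one_le_pow₀ (by norm_num))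
  refine ⟨fun k => 33 / 2 * R (i + k) - 11 / 2 - (-1) ^ k * d, strictMono_nat_of_lt_succ
    fun k => ?_, fun k => ?_, by simp, ?_⟩
  · have := l k
    rw [← add_assoc, R_succ, pow_succ]
    rcases neg_one_pow_eq_or ℝ k with f | f <;> rw [f] <;> linarith
  · have := pass0 (i + k) (e := (-1) ^ k * d) (by
      rw [abs_mul, abs_of_pos h0]; simp; linarith [l k])
    rwa [pow_add, mul_assoc, ← mul_assoc ((-1) ^ k), ← mul_pow, neg_mul_neg, one_mul, one_pow,
      one_mul] at this
  · have g1 := (hasSum_geometric_of_abs_lt_one (r := 3 / 4) (by norm_num [abs_of_pos])).mul_left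
      (33 / 4 * R i)
    have g2 := (hasSum_geometric_of_abs_lt_one (r := 1 / 2) (by norm_num [abs_of_pos])).mul_left
      (11 / 4)
    have g3 := (hasSum_geometric_of_abs_lt_one (r := -(1 / 2)) (by norm_num [abs_of_pos])).mul_left
      (d / 2)
    refine hs ((g1.sub g2).sub g3) (fun k => ?_) (by ring)
    beta_reduce
    rw [e, neg_pow (1 / 2 : ℝ), show (3 / 4 : ℝ) = 1 / 2 * (3 / 2) by norm_num, mul_pow]; ring

theorem upper : CR (1 / 2) Y ≤ ENNReal.ofReal (23 / 3) := by
  refine iSup₂_le fun h hh => ?_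
  have hh : 1 ≤ |h| := hh
  obtain ⟨i, e, i1, i2⟩ : ∃ i : ℕ, h = (-1) ^ i * |h| ∧ R i ≤ |h| ∧ |h| < 9 / 4 * R i := by
    obtain ⟨a, a1, a2⟩ : ∃ a : ℕ, a ≤ 1 ∧ h = (-1) ^ a * |h| := by
      rcases le_total 0 h with c | c
      · exact ⟨0, by omega, by simp [abs_of_nonneg c]⟩
      · exact ⟨1, le_rfl, by simp [abs_of_nonpos c]⟩
    have ex : ∃ n, |h| < 9 / 4 * R (a + 2 * n) := by
      obtain ⟨i, hi⟩ := pow_unbounded_of_one_lt |h| (show (1 : ℝ) < 3 / 2 by norm_num)
      have := pow_le_pow_right₀ (show (1 : ℝ) ≤ 3 / 2 by norm_num) (show i ≤ a + 2 * i by omega)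
      exact ⟨i, by rw [R]; linarith⟩
    refine ⟨a + 2 * Nat.find ex, by rw [pow_add, pow_mul]; simpa using a2, ?_, Nat.find_spec ex⟩
    rcases e : Nat.find ex with _ | n
    · interval_cases a <;> norm_num [R] <;> linarith
    · have := Nat.find_min ex (m := n) (by omega)
      rw [show a + 2 * (n + 1) = a + 2 * n + 1 + 1 by ring, R_succ, R_succ]
      linarith
  set d := |h|
  have r := R_pos i
  have r2 : 1 / 2 ≤ R i := by
    have := one_le_pow₀ (show (1 : ℝ) ≤ 3 / 2 by norm_num) (n := i)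
    rw [R]; linarith
  have g := (tail i (by linarith) i2).cons (b := 12 * R i - 11 / 2 + d)
    (pass (3 * i + 2) i (Y2 i) (Y3 i) (mem_uIcc.2 (Or.inl ⟨i1, i2.le⟩))
      (by rw [(tau1 i).2.1, abs_of_nonneg] <;> linarith)) (by linarith)
  have fin : ET (1 / 2) Y h ≤ ENNReal.ofReal (46 / 3 * d) := by
    rw [e]
    by_cases c : 3 / 2 * R i ≤ d
    · exact (g.le (by linarith)).trans (ofReal_le_ofReal (by linarith))
    · push Not at c
      obtain ⟨j, rfl⟩ : ∃ j, i = j + 1 := by
        rcases i with _ | j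
        · norm_num [R] at c; linarith
        · exact ⟨j, rfl⟩
      have p1 := pass0 j (e := -d) (by rw [abs_neg, abs_abs]; rw [R_succ] at c; linarith)
      rw [mul_neg, ← mul_neg_one, mul_right_comm, ← pow_succ] at p1
      rcases i1.eq_or_lt with f | f
      · obtain ⟨k, rfl⟩ : ∃ k, j = k + 1 := by
          rcases j with _ | k
          · norm_num [R] at f; linarith
          · exact ⟨k, rfl⟩
        have p0 := pass0 k (e := d) (by rw [abs_abs]; rw [R_succ, R_succ] at f; linarith)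
        rw [show (-1 : ℝ) ^ k = (-1) ^ (k + 1 + 1) by ring] at p0
        simp only [R_succ] at *
        exact (((g.cons p1 (by linarith)).cons p0 (by linarith)).le (by linarith)).trans
          (ofReal_le_ofReal (by linarith))
      · have p2 := pass (3 * (j + 1) + 1) (j + 1) (Y1 _) (Y2 _) (mem_uIcc.2 (Or.inr ⟨i1, c.le⟩))
          (t := 14 * R (j + 1) - 11 / 2 - d) (by rw [(tau1 _).1, abs_of_nonpos] <;> linarith)
        simp only [R_succ] at *
        exact (((g.cons p2 (by linarith)).cons p1 (by linarith)).le (by linarith)).trans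
          (ofReal_le_ofReal (by linarith))
  rw [ENNReal.div_le_iff (ofReal_pos.2 (by linarith)).ne' ofReal_ne_top,
    ← ofReal_mul (by norm_num)]
  refine (mul_le_mul_right fin _).trans ?_
  rw [← ofReal_mul (by norm_num)]
  exact ofReal_le_ofReal (by linarith)

theorem result : ∃ p ∈ Ioo (0 : ℝ) 1, ∃ X, Traj X ∧
    CR p X < ⨅ Y ∈ {Y | Traj Y ∧ CycMono Y}, CR p Y :=
  ⟨1 / 2, by norm_num, Y, traj, (upper.trans_lt ((ofReal_lt_ofReal_iff (by norm_num)).2
    (by norm_num))).trans_le (le_iInf₂ fun y h => lower y h.1.1 h.2)⟩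

end Pool.Agent.Results.MP_75ee99_lc.No
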